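import Mathlib
import Pool.Agent.Y868.TB.F2

/-!
# The Hardy-Littlewood formula for almost all quadratics with a given constant term

The constant term `c ≠ 0` is fixed (or `|c| ≤ x^(1/30)`) and both other coefficients vary,
`a ≤ D` and `b ≤ B`, where `D` may be any number between a power of `log x` and a power of `x`, and
`B = D x` up to powers of `log x`. For all but `D B / (log x)^U` of the pairs `(a, b)`, the number of
prime values of `a m² + b m + c` is given by the Hardy-Littlewood formula, with the constant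
`ε C(a, b, c) ∏ p / (p - 1)` and the relative error `(log x)^(-U)`, for `m ≤ x` and in fact for `m` in
every interval `(u, v]` with `v ≤ x`.

Proof. `a m² + b m + c = p` means that `p ≡ c (mod m)` with complementary divisor `a m + b`. For the
second moment over `(a, b)` of the sum over `m` of the difference of the primes and their sieve model,
one takes Fourier transforms in `a m + b`: on the minor arcs the large sieve in `m` saves a power of
the logarithm, the sum over `a` giving the kernel, and on the major arcs the saving comes from the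
theorem of Bombieri and Vinogradov for the moduli `m q`. The products cut at a power of `log x` are
then compared with the infinite products for almost all `(a, b)`, by means of second moments over the
discriminants `b² - 4 a c`, a large sieve over their kernels, and the theorem of Siegel and Walfisz.
-/

set_option autoImplicit false

namespace Pool.Agent.Results.MP_a1177c_nt.AlmostAllPairs

open Finset Filter Topology

/-- the triple `(a, b, c)` is admissible -/
def Admissible (a b c : ℤ) : Prop :=
  0 < a ∧ (∀ d : ℤ, d ∣ a → d ∣ b → d ∣ c → IsUnit d) ∧ ¬ ((2 : ℤ) ∣ a + b ∧ (2 : ℤ) ∣ c) ∧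
    ¬ IsSquare (b ^ 2 - 4 * a * c)

/-- the number of `u < m ≤ v` for which `a m² + b m + c` is a (positive) prime -/
def primeCount (a b c : ℤ) (u v : ℕ) : ℕ :=
  #((Ioc u v).filter (fun m : ℕ => (a * (m : ℤ) ^ 2 + b * m + c).toNat.Prime))

/-- `ε = 2` if `a + b` is even and `ε = 1` if `a + b` is odd -/
noncomputable def eps (a b : ℤ) : ℝ := if (2 : ℤ) ∣ a + b then 2 else 1

/-- the product `∏_{p > 2, p ∣ gcd(a, b)} p / (p - 1)` -/
noncomputable def gcdProd (a b : ℤ) : ℝ :=
  ∏ p ∈ (Int.gcd a b).primeFactors.filter (fun p => 2 < p), (p : ℝ) / (p - 1)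

/-- the product `∏_{2 < p ≤ z, p ∤ a} (1 - (D / p) / (p - 1))`, where `D = b² - 4 a c` -/
noncomputable def partialC (a b c : ℤ) (z : ℕ) : ℝ :=
  ∏ p ∈ (Icc 3 z).filter (fun p : ℕ => p.Prime ∧ ¬ (p : ℤ) ∣ a),
    (1 - (jacobiSym (b ^ 2 - 4 * a * c) p : ℝ) / (p - 1))

/-- **The Hardy-Littlewood formula for almost all pairs `(a, b)`.** Let `U, K ≥ 0`. There are `C` and
`x0` such that the following holds for `x ≥ x0`. Let `(log x)^C ≤ D ≤ x^K` and
`D x (log x)^(-K) ≤ B ≤ D x (log x)^K`, and let `c ≠ 0` with `|c|^30 ≤ x`. Then for all but at most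
`D B / (log x)^U` of the pairs `(a, b)` with `a ≤ D` and `b ≤ B`: if `(a, b, c)` is admissible, the
product `C(a, b, c)` converges to a number `S > 0` and, with `M = ε S ∏_{p > 2, p ∣ gcd(a, b)} p / (p - 1)`,
for all `u < v ≤ x` the number of `u < m ≤ v` with `a m² + b m + c` prime differs from
`M ∑_{u < m ≤ v} 1 / log (a m² + b m + c)` by at most `M x / (log x)^U`. -/
theorem result (U K : ℕ) : ∃ C x0 : ℕ, ∀ x : ℕ, x0 ≤ x → ∀ D B : ℕ, Real.log x ^ C ≤ D →
    (D : ℝ) ≤ (x : ℝ) ^ K → (D : ℝ) * x ≤ B * Real.log x ^ K → (B : ℝ) ≤ D * x * Real.log x ^ K →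
    ∀ c : ℤ, c ≠ 0 → |c| ^ 30 ≤ (x : ℤ) →
    ∃ Bad ⊆ Icc 1 D ×ˢ Icc 1 B, (#Bad : ℝ) ≤ D * B / Real.log x ^ U ∧
      ∀ a ∈ Icc 1 D, ∀ b ∈ Icc 1 B, (a, b) ∉ Bad → Admissible a b c →
        ∃ S : ℝ, 0 < S ∧ Tendsto (fun z => partialC a b c z) atTop (𝓝 S) ∧ ∀ u v : ℕ, u < v → v ≤ x →
          |(primeCount a b c u v : ℝ) -
            eps a b * S * gcdProd a b * ∑ m ∈ Ioc u v, 1 / Real.log ((a : ℝ) * m ^ 2 + b * m + c)| ≤
          eps a b * S * gcdProd a b * x / Real.log x ^ U :=
  Pool.Agent.Y868.TB.final U K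

end Pool.Agent.Results.MP_a1177c_nt.AlmostAllPairs
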