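import Pool.Agent.TH464.PO.QuadAP
import Pool.Agent.Y859.SP.GapPoly

set_option autoImplicit false

/-!
# Almost prime values of admissible quadratic polynomials: the laws of the gaps
-/

namespace Pool.Agent.Results.MP_a1177c_nt.GammaLawForGaps

open Finset Filter

/-- `a m ^ 2 + b m + c` has at most `2 r` prime factors (with multiplicity), all larger than
`X ^ (1 / r)`. -/
def AlmostPrimeValue (a b c : ℤ) (r X m : ℕ) : Prop :=
  (a * (m : ℤ) ^ 2 + b * m + c).natAbs.primeFactorsList.length ≤ 2 * r ∧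
    ∀ p : ℕ, p.Prime → (p : ℤ) ∣ a * (m : ℤ) ^ 2 + b * m + c → (X : ℝ) ^ (1 / (r : ℝ)) < (p : ℝ)

open Classical in
/-- The sieve density: the product of `1 - ρ(p) / p` over the primes `p ≤ X ^ (1 / r)`, where `ρ(p)` is
the number of the `m` mod `p` with `p ∣ a m ^ 2 + b m + c`. -/
noncomputable def V (a b c : ℤ) (r X : ℕ) : ℝ :=
  ∏ p ∈ (Finset.range (⌊(X : ℝ) ^ (1 / (r : ℝ))⌋₊ + 1)).filter Nat.Prime,
    (1 - (((Finset.range p).filter
      (fun m : ℕ => (p : ℤ) ∣ a * (m : ℤ) ^ 2 + b * m + c)).card : ℝ) / p)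

open Classical in
/-- The number of the good `n` in `(X, X + Y]` with fewer than `k` good integers in `[n - T, n)`. -/
noncomputable def Near (a b c : ℤ) (r k T X Y : ℕ) : ℕ :=
  ((Finset.Ioc X (X + Y)).filter (fun n => AlmostPrimeValue a b c r X n ∧
    ((Finset.Ico (n - T) n).filter (fun m => AlmostPrimeValue a b c r X m)).card < k)).card

open Pool.Agent.TH464.PO Pool.Agent.W123.RU.Poly Pool.Agent.W123.RP Pool.Agent.Y859.SP

open Classical in
/-- **The distances between the almost prime values of an admissible quadratic polynomial follow the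
Gamma laws of a Poisson process**, in all short intervals. -/
theorem result (a b c : ℤ) (ha : 0 < a)
    (hg : ∀ p : ℕ, p.Prime → ¬ ((p : ℤ) ∣ a ∧ (p : ℤ) ∣ b ∧ (p : ℤ) ∣ c))
    (hpar : ¬ (Even (a + b) ∧ Even c)) (hD : ¬ IsSquare (b ^ 2 - 4 * a * c))
    (θ : ℝ) (hθ : 0 < θ) (k0 : ℕ) (x0 ε : ℝ) (hε : 0 < ε) :
    ∃ r0 : ℕ, ∀ r : ℕ, r0 ≤ r → ∀ᶠ X : ℕ in atTop, ∀ Y : ℕ, (X : ℝ) ^ θ ≤ Y → Y ≤ X →
      ∀ k T : ℕ, (k ≤ k0 ∨ T * V a b c r X ≤ x0) →
        |(Near a b c r k T X Y : ℝ) - Y * V a b c r X * ∑ j ∈ Finset.range k,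
          Real.exp (-(T * V a b c r X)) * (T * V a b c r X) ^ j / j.factorial| ≤
            ε * (Y * V a b c r X) := by
  obtain ⟨r0, h0⟩ := gap_poly (qs a b c) (qs_sys a b c ha hg hpar hD) (qs_noTr a b c ha) θ hθ k0 x0 ε hε
  refine ⟨max r0 1, ?_⟩
  intro r hr
  filter_upwards [h0 r ((le_max_left _ _).trans hr), sf_APq a b c r ((le_max_right _ _).trans hr)]
    with X hX hap
  intro Y hXY hYX k T hkT
  have hV : Vq (Q (qs a b c)) ⌊(X : ℝ) ^ (1 / (r : ℝ))⌋₊ = V a b c r X := qs_V a b c _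
  have h1 := hX Y hXY k T (by rw [hV]; exact hkT)
  rw [hV] at h1
  have hN : Near a b c r k T X Y = Pk (Sf (Q (qs a b c)) ⌊(X : ℝ) ^ (1 / (r : ℝ))⌋₊) k T X Y := by
    unfold Near Pk
    congr 1
    apply Finset.filter_congr
    intro n hn
    rw [mem_Ioc] at hn
    have e1 : Sf (Q (qs a b c)) ⌊(X : ℝ) ^ (1 / (r : ℝ))⌋₊ n ↔ AlmostPrimeValue a b c r X n :=
      hap n (by omega)
    have e2 : (Finset.Ico (n - T) n).filter (fun m => AlmostPrimeValue a b c r X m) =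
        (Finset.Ico (n - T) n).filter (Sf (Q (qs a b c)) ⌊(X : ℝ) ^ (1 / (r : ℝ))⌋₊) := by
      apply Finset.filter_congr
      intro m hm
      rw [mem_Ico] at hm
      exact (hap m (by omega)).symm
    rw [e1, e2]
  rw [hN]
  exact h1

end Pool.Agent.Results.MP_a1177c_nt.GammaLawForGaps
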