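import Pool.Agent.Y843.AC.Gen
import Pool.Agent.Y843.AC.Lin
import Pool.Agent.Y843.QD.PT
import Pool.Agent.Y843.QD.Low
import Pool.Agent.Y843.HG.GoldP

/-!
# Progressions of `n` with `a n ^ 2 + b n + c` prime or almost prime: the exact order of their number

(helper843 and helper751, with the library `Y843` of helper843 and helpers 71, 872, 363.)

For every admissible `(a, b, c)` the number of the progressions of `k` terms, with differences at most `D`, of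
integers `n` of an interval of length `X` for which `a n ^ 2 + b n + c` has at most three prime factors is of
the order `X D / log ^ k X`. Uniformly in all systems of `s` nonconstant integer polynomials of degree at most
two without fixed prime divisor, of any size: every dense subset of the set of the `n` at which all their values
are prime, or free of small prime factors, has the expected order `X D V ^ k` of progressions, and conversely.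
-/

set_option autoImplicit false

namespace Pool.Agent.Results.MP_a1177c_nt.ProgressionCounts

open Finset

/-- The value at `n` of the polynomial `q 1 X ^ 2 + q 2 X + q 3`. -/
def val (q : ℤ × ℤ × ℤ) (n : ℕ) : ℤ := q.1 * (n : ℤ) ^ 2 + q.2.1 * n + q.2.2

/-- The triple `q = (a, b, c)` is admissible in the sense of the problem. -/
def Admissible (q : ℤ × ℤ × ℤ) : Prop :=
  0 < q.1 ∧ gcd (gcd q.1 q.2.1) q.2.2 = 1 ∧ ¬ IsSquare (q.2.1 ^ 2 - 4 * q.1 * q.2.2) ∧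
    ¬ (Even (q.1 + q.2.1) ∧ Even q.2.2)

/-- The `f i` are nonconstant polynomials of degree at most two, and no prime divides `∏ f i (n)` for all
`n`. -/
def Possible {s : ℕ} (f : Fin s → ℤ × ℤ × ℤ) : Prop :=
  (∀ i, (f i).1 ≠ 0 ∨ (f i).2.1 ≠ 0) ∧
    ∀ p : ℕ, p.Prime → ∃ n : ℕ, ∀ i, ¬ (p : ℤ) ∣ val (f i) n

open Classical in
/-- The residues `c` modulo `p` for which `p` divides some `f i (c)`. -/
noncomputable def roots {s : ℕ} (f : Fin s → ℤ × ℤ × ℤ) (p : ℕ) : Finset ℕ :=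
  (range p).filter (fun c => ∃ i, (p : ℤ) ∣ val (f i) c)

/-- The proportion of the integers `n` such that no prime `≤ x` divides any `f i (n)`. -/
noncomputable def V {s : ℕ} (f : Fin s → ℤ × ℤ × ℤ) (x : ℕ) : ℝ :=
  ∏ p ∈ (Ioc 0 x).filter Nat.Prime, (1 - ((roots f p).card : ℝ) / p)

/-- The `n` in `[1, x]` for which all `|f i (n)|` are primes. -/
def P {s : ℕ} (f : Fin s → ℤ × ℤ × ℤ) (x : ℕ) : Finset ℕ :=
  (Icc 1 x).filter (fun n => ∀ i, (val (f i) n).natAbs.Prime)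

open Classical in
/-- The integers `A < n ≤ A + X` for which `|q (n)|` has at most three prime factors, counted with
multiplicity, all of them at least `X ^ (1/4)`. -/
noncomputable def P3 (q : ℤ × ℤ × ℤ) (A X : ℕ) : Finset ℕ :=
  (Ioc A (A + X)).filter (fun n => ((val q n).natAbs).primeFactorsList.length ≤ 3 ∧
    ∀ p : ℕ, p.Prime → p ∣ (val q n).natAbs → (X : ℝ) ^ (1 / 4 : ℝ) ≤ p)

/-- No prime `≤ x ^ (1/u)` divides any `f i (n)`. -/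
def Rough {s : ℕ} (u : ℕ) (f : Fin s → ℤ × ℤ × ℤ) (x n : ℕ) : Prop :=
  ∀ p : ℕ, p.Prime → (p : ℝ) ≤ (x : ℝ) ^ (1 / (u : ℝ)) → ∀ i, ¬ (p : ℤ) ∣ val (f i) n

open Classical in
/-- The number of the progressions `b, b + d, …, b + (k - 1) d` in `S` with `1 ≤ d ≤ D`. -/
noncomputable def AP (k D : ℕ) (S : Finset ℕ) : ℕ :=
  ((S ×ˢ Icc 1 D).filter (fun q => ∀ j < k, q.1 + j * q.2 ∈ S)).card

open Classical in
/-- The elements of `S` which lie in no progression of `k` elements of `S` with a difference in `[1, D]`. -/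
noncomputable def outside (k : ℕ) (D : ℝ) (S : Finset ℕ) : Finset ℕ :=
  S.filter (fun n => ¬ ∃ b d : ℕ, 1 ≤ d ∧ (d : ℝ) ≤ D ∧ (∀ j < k, b + j * d ∈ S) ∧ ∃ j < k, n = b + j * d)

lemma AP_eq (k D : ℕ) (S : Finset ℕ) : AP k D S = (Pool.Agent.Y843.AC.APs k D S).card := rfl

lemma V_eq {s : ℕ} (f : Fin s → ℤ × ℤ × ℤ) (x : ℕ) : V f x = Pool.Agent.Y843.HS.VV (roots f) 0 x := rfl

theorem avoid {s : ℕ} (f : Fin s → ℤ × ℤ × ℤ) {n p : ℕ} (hp : p.Prime) :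
    n % p ∈ roots f p ↔ ∃ i, (p : ℤ) ∣ val (f i) n := by
  classical
  have h := fun i => Pool.Agent.Y843.QD.mem_Zq (α := (f i).1) (β := (f i).2.1) (γ := (f i).2.2) hp.pos n
  simp only [Pool.Agent.Y843.QD.Zq, mem_filter, mem_range] at h
  unfold roots
  rw [mem_filter, mem_range]
  constructor
  · rintro ⟨h1, i, h2⟩
    exact ⟨i, (h i).1 ⟨h1, h2⟩⟩
  · rintro ⟨i, h2⟩
    have h3 := (h i).2 h2
    exact ⟨h3.1, i, h3.2⟩

theorem roots_ok {s : ℕ} (f : Fin s → ℤ × ℤ × ℤ) (h : Possible f) (p : ℕ) (hp : p.Prime) :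
    (roots f p).card ≤ 2 * s ∧ (roots f p).card < p ∧ ∀ c ∈ roots f p, c < p := by
  classical
  refine ⟨?_, ?_, ?_⟩
  · have h1 : roots f p ⊆ univ.biUnion
        (fun i => Pool.Agent.Y843.QD.Zq (f i).1 (f i).2.1 (f i).2.2 p) := by
      intro c hc
      unfold roots at hc
      rw [mem_filter] at hc
      obtain ⟨h1, i, h2⟩ := hc
      rw [mem_biUnion]
      refine ⟨i, mem_univ _, ?_⟩
      unfold Pool.Agent.Y843.QD.Zq
      rw [mem_filter]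
      exact ⟨h1, h2⟩
    refine (card_le_card h1).trans (card_biUnion_le.trans ?_)
    calc ∑ i : Fin s, (Pool.Agent.Y843.QD.Zq (f i).1 (f i).2.1 (f i).2.2 p).card ≤
          ∑ _i : Fin s, 2 := by
          apply sum_le_sum
          intro i _
          apply (Pool.Agent.Y843.QD.card_Zq_le (f i).1 (f i).2.1 (f i).2.2 _ p hp).1
          intro q hq
          obtain ⟨n, hn⟩ := h.2 q hq
          exact ⟨n, hn i⟩
      _ = 2 * s := by rw [sum_const, card_univ, Fintype.card_fin, smul_eq_mul, mul_comm]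
  · obtain ⟨n, hn⟩ := h.2 p hp
    have h1 : n % p ∉ roots f p := by
      rw [avoid f hp]
      rintro ⟨i, hi⟩
      exact hn i hi
    have h2 : roots f p ⊂ range p := by
      rw [Finset.ssubset_iff_subset_ne]
      refine ⟨filter_subset _ _, ?_⟩
      intro h
      apply h1
      rw [h, mem_range]
      exact Nat.mod_lt _ hp.pos
    have := card_lt_card h2
    rwa [card_range] at this
  · intro c hc
    unfold roots at hc
    rw [mem_filter, mem_range] at hc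
    exact hc.1

/-- an admissible triple has no fixed prime divisor -/
theorem adm (q : ℤ × ℤ × ℤ) (hq : Admissible q) (p : ℕ) (hp : p.Prime) :
    ∃ n : ℕ, ¬ (p : ℤ) ∣ q.1 * (n : ℤ) ^ 2 + q.2.1 * n + q.2.2 := by
  obtain ⟨-, hg, -, hpar⟩ := hq
  by_contra hcon
  push Not at hcon
  have h0 := hcon 0
  have h1 := hcon 1
  have h2 := hcon 2
  rw [Nat.cast_zero] at h0
  rw [Nat.cast_one] at h1
  rw [Nat.cast_ofNat] at h2
  have e0 : (p : ℤ) ∣ q.2.2 := by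
    have e : q.1 * (0 : ℤ) ^ 2 + q.2.1 * 0 + q.2.2 = q.2.2 := by ring
    rwa [e] at h0
  have e1 : (p : ℤ) ∣ q.1 + q.2.1 := by
    have := dvd_sub h1 e0
    have e : q.1 * (1 : ℤ) ^ 2 + q.2.1 * 1 + q.2.2 - q.2.2 = q.1 + q.2.1 := by ring
    rwa [e] at this
  rcases hp.eq_two_or_odd' with h | h
  · subst h
    exact hpar ⟨(even_iff_two_dvd).2 (by exact_mod_cast e1), (even_iff_two_dvd).2 (by exact_mod_cast e0)⟩
  · have e2 : (p : ℤ) ∣ 2 * q.1 := by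
      have h3 := dvd_sub (dvd_sub h2 e0) (e1.mul_left 2)
      have e : q.1 * (2 : ℤ) ^ 2 + q.2.1 * 2 + q.2.2 - q.2.2 - 2 * (q.1 + q.2.1) = 2 * q.1 := by
        ring
      rwa [e] at h3
    have hpi : Prime (p : ℤ) := Nat.prime_iff_prime_int.1 hp
    have e3 : (p : ℤ) ∣ q.1 := by
      rcases hpi.dvd_or_dvd e2 with h4 | h4
      · exfalso
        have h5 : p ∣ 2 := by exact_mod_cast h4
        have h6 := (Nat.prime_dvd_prime_iff_eq hp Nat.prime_two).1 h5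
        rw [h6] at h
        exact absurd h (by decide)
      · exact h4
    have e4 : (p : ℤ) ∣ q.2.1 := by
      have := dvd_sub e1 e3
      have e : q.1 + q.2.1 - q.1 = q.2.1 := by ring
      rwa [e] at this
    have h1 : (p : ℤ) ∣ gcd (gcd q.1 q.2.1) q.2.2 := dvd_gcd (dvd_gcd e3 e4) e0
    rw [hg] at h1
    have : p ∣ 1 := by exact_mod_cast h1
    exact hp.one_lt.ne' (Nat.dvd_one.1 this)

/-- one admissible polynomial is possible -/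
theorem possible_one (q : ℤ × ℤ × ℤ) (hq : Admissible q) : Possible (fun _ : Fin 1 => q) := by
  refine ⟨fun _ => Or.inl hq.1.ne', fun p hp => ?_⟩
  obtain ⟨n, hn⟩ := adm q hq p hp
  exact ⟨n, fun _ => hn⟩

theorem cl {s : ℕ} (f : Fin s → ℤ × ℤ × ℤ) (h : Possible f) (x : ℕ) :
    Pool.Agent.Y843.AC.Gn.Cl (2 * s) x (roots f) := fun p hp _ => roots_ok f h p hp

/-- every value is attained at most twice -/
theorem fib (q : ℤ × ℤ × ℤ) (hq : q.1 ≠ 0 ∨ q.2.1 ≠ 0) (S : Finset ℕ) (w : ℕ) :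
    (S.filter (fun n : ℕ => (val q n).natAbs ≤ w)).card ≤ 2 * (2 * w + 1) := by
  classical
  have h1 := Finset.card_le_mul_card_image (f := fun n : ℕ => val q n)
    (S.filter (fun n : ℕ => (val q n).natAbs ≤ w)) 2 (by
      intro v _
      by_contra hcon
      rw [not_le, Finset.two_lt_card_iff] at hcon
      obtain ⟨n1, n2, n3, h1, h2, h3, h12, h13, h23⟩ := hcon
      rw [mem_filter] at h1 h2 h3
      have e1 : val q n1 = v := h1.2
      have e2 : val q n2 = v := h2.2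
      have e3 : val q n3 = v := h3.2
      unfold val at e1 e2 e3
      have d12 : (n1 : ℤ) - n2 ≠ 0 := sub_ne_zero.2 (by exact_mod_cast h12)
      have d13 : (n1 : ℤ) - n3 ≠ 0 := sub_ne_zero.2 (by exact_mod_cast h13)
      have d23 : (n2 : ℤ) - n3 ≠ 0 := sub_ne_zero.2 (by exact_mod_cast h23)
      have f12 : ((n1 : ℤ) - n2) * (q.1 * (n1 + n2) + q.2.1) = 0 := by linear_combination e1 - e2
      have f13 : ((n1 : ℤ) - n3) * (q.1 * (n1 + n3) + q.2.1) = 0 := by linear_combination e1 - e3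
      have g12 := (mul_eq_zero.1 f12).resolve_left d12
      have g13 := (mul_eq_zero.1 f13).resolve_left d13
      have g : ((n2 : ℤ) - n3) * q.1 = 0 := by linear_combination g12 - g13
      have ga := (mul_eq_zero.1 g).resolve_left d23
      rw [ga, zero_mul, zero_add] at g12
      rcases hq with h | h
      · exact h ga
      · exact h g12)
  refine h1.trans (Nat.mul_le_mul_left 2 ?_)
  have h2 : (S.filter (fun n : ℕ => (val q n).natAbs ≤ w)).image (fun n : ℕ => val q n) ⊆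
      Icc (-(w : ℤ)) w := by
    intro v hv
    rw [mem_image] at hv
    obtain ⟨n, hn, rfl⟩ := hv
    rw [mem_filter] at hn
    have h3 := hn.2
    show val q n ∈ Icc (-(w : ℤ)) w
    rw [mem_Icc]
    omega
  refine (card_le_card h2).trans ?_
  rw [Int.card_Icc]
  omega

/-- the exceptional elements -/
theorem most {s : ℕ} (u : ℕ) (hu : 1 ≤ u) (f : Fin s → ℤ × ℤ × ℤ) (hf : Possible f) (x : ℕ) (hx : 1 ≤ x) (S : Finset ℕ)
    (hS : ∀ n ∈ S, (∀ i, (val (f i) n).natAbs.Prime) ∨ Rough u f x n) :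
    Pool.Agent.Y843.AC.Gn.Most (6 * s) (max u 2) 1 x (roots f) S := by
  classical
  have hx1 : (1 : ℝ) ≤ x := by exact_mod_cast hx
  obtain ⟨w, hw⟩ : ∃ w : ℝ, w = (x : ℝ) ^ (1 / ((max u 2 : ℕ) : ℝ)) := ⟨_, rfl⟩
  have hw0 : 0 ≤ w := by rw [hw]; positivity
  have hw2 : w ≤ (x : ℝ) ^ ((1 : ℝ) / 2) := by
    rw [hw]
    apply Real.rpow_le_rpow_of_exponent_le hx1
    apply one_div_le_one_div_of_le (by norm_num)
    exact_mod_cast le_max_right _ _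
  have hwu : w ≤ (x : ℝ) ^ (1 / (u : ℝ)) := by
    rw [hw]
    apply Real.rpow_le_rpow_of_exponent_le hx1
    apply one_div_le_one_div_of_le (by exact_mod_cast hu)
    exact_mod_cast le_max_left _ _
  have h12 : (1 : ℝ) ≤ (x : ℝ) ^ ((1 : ℝ) / 2) := Real.one_le_rpow hx1 (by norm_num)
  unfold Pool.Agent.Y843.AC.Gn.Most
  have h1 : S.filter (fun n => ¬ Pool.Agent.Y843.AC.Gn.Ro (max u 2) x (roots f) n) ⊆
      univ.biUnion (fun i : Fin s => S.filter (fun n : ℕ => (val (f i) n).natAbs ≤ ⌊w⌋₊)) := by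
    intro n hn
    rw [mem_filter] at hn
    obtain ⟨hnS, hn2⟩ := hn
    rw [mem_biUnion]
    by_contra hcon
    push Not at hcon
    apply hn2
    intro p hp hpx hmem
    rw [← hw] at hpx
    obtain ⟨i, hi⟩ := (avoid f hp).1 hmem
    rcases hS n hnS with h3 | h3
    · have h4 := (Nat.prime_dvd_prime_iff_eq hp (h3 i)).1 (Int.natCast_dvd.1 hi)
      apply hcon i (mem_univ _)
      rw [mem_filter]
      refine ⟨hnS, ?_⟩
      rw [← h4]
      exact Nat.le_floor hpx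
    · exact h3 p hp (hpx.trans hwu) i hi
  have h2 : (S.filter (fun n => ¬ Pool.Agent.Y843.AC.Gn.Ro (max u 2) x (roots f) n)).card ≤
      s * (2 * (2 * ⌊w⌋₊ + 1)) := by
    refine (card_le_card h1).trans (card_biUnion_le.trans ?_)
    calc ∑ i : Fin s, (S.filter (fun n : ℕ => (val (f i) n).natAbs ≤ ⌊w⌋₊)).card
        ≤ ∑ _i : Fin s, (2 * (2 * ⌊w⌋₊ + 1)) := by
          apply sum_le_sum
          intro i _
          exact fib (f i) (hf.1 i) S ⌊w⌋₊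
      _ = s * (2 * (2 * ⌊w⌋₊ + 1)) := by rw [sum_const, card_univ, Fintype.card_fin, smul_eq_mul]
  have h3 : ((S.filter (fun n => ¬ Pool.Agent.Y843.AC.Gn.Ro (max u 2) x (roots f) n)).card : ℝ) ≤
      s * (2 * (2 * ⌊w⌋₊ + 1)) := by exact_mod_cast h2
  have h4 := Nat.floor_le hw0
  refine h3.trans ?_
  have h5 : (s : ℝ) * (2 * (2 * ⌊w⌋₊ + 1)) ≤ s * (6 * (x : ℝ) ^ ((1 : ℝ) / 2)) :=
    mul_le_mul_of_nonneg_left (by linarith) (Nat.cast_nonneg _)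
  linarith

theorem up (s k : ℕ) (hk : 1 ≤ k) (u : ℕ) (hu : 1 ≤ u) :
    ∃ C : ℝ, 0 < C ∧ ∃ B x₀ : ℕ, ∀ x : ℕ, x₀ ≤ x → ∀ (f : Fin s → ℤ × ℤ × ℤ), Possible f → ∀ Y D : ℕ,
      Real.log x ^ B ≤ D → ∀ S : Finset ℕ, S ⊆ Ioc Y (Y + x) →
      (∀ n ∈ S, (∀ i, (val (f i) n).natAbs.Prime) ∨ Rough u f x n) →
      (AP k D S : ℝ) ≤ C * (x * D * V f x ^ k) := by
  obtain ⟨C, hC, B, n₀, h⟩ := Pool.Agent.Y843.AC.Gn.up (2 * s) k (max u 2) (6 * s) hk (by omega) one_pos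
  refine ⟨C, hC, B, max n₀ 1, ?_⟩
  intro x hx f hf Y D hD S hS hR
  exact h x ((le_max_left _ _).trans hx) (roots f) (cl f hf x) Y x D (by rw [Real.rpow_one]) le_rfl hD S hS
    (most u hu f hf x ((le_max_right _ _).trans hx) S hR)

theorem dn (s k : ℕ) (hk : 1 ≤ k) (u : ℕ) (hu : 1 ≤ u) (δ : ℝ) (hδ : 0 < δ) :
    ∃ c : ℝ, 0 < c ∧ ∃ B x₀ : ℕ, ∀ x : ℕ, x₀ ≤ x → ∀ (f : Fin s → ℤ × ℤ × ℤ), Possible f → ∀ Y D : ℕ,
      Real.log x ^ B ≤ D → D ≤ x → ∀ S : Finset ℕ, S ⊆ Ioc Y (Y + x) →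
      (∀ n ∈ S, (∀ i, (val (f i) n).natAbs.Prime) ∨ Rough u f x n) →
      (δ * (x * V f x) ≤ S.card → c * (x * D * V f x ^ k) ≤ AP k D S) ∧
      (δ * (x * D * V f x ^ k) ≤ AP k D S → c * (x * V f x) ≤ S.card) := by
  obtain ⟨c, hc, B, n₀, h⟩ := Pool.Agent.Y843.AC.Gn.dn (2 * s) k (max u 2) (6 * s) hk (by omega) one_pos hδ
  refine ⟨c, hc, B, max n₀ 1, ?_⟩
  intro x hx f hf Y D hD hDx S hS hR
  exact h x ((le_max_left _ _).trans hx) (roots f) (cl f hf x) Y x D (by rw [Real.rpow_one]) le_rfl hD hDx S hS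
    (most u hu f hf x ((le_max_right _ _).trans hx) S hR)

theorem big (B : ℕ) : ∃ n₀ : ℕ, ∀ n : ℕ, n₀ ≤ n → Real.log n ^ B ≤ n := by
  obtain ⟨n₀, h⟩ := Pool.Agent.Y843.HS.log_pow_le B 1
  exact ⟨n₀, fun n hn => by simpa using h n hn⟩

theorem V_pos (s : ℕ) : ∃ x₀ : ℕ, ∀ x : ℕ, x₀ ≤ x → ∀ (f : Fin s → ℤ × ℤ × ℤ), Possible f → 0 < V f x := by
  obtain ⟨c, hc, x₀, h⟩ := Pool.Agent.Y843.AC.Gn.V_low (2 * s)
  refine ⟨max x₀ 3, fun x hx f hf => ?_⟩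
  have h1 := h x ((le_max_left _ _).trans hx) (roots f) (cl f hf x)
  have hlx : 0 < Real.log x := Real.log_pos (by
    have : 3 ≤ x := (le_max_right _ _).trans hx
    exact_mod_cast (show 1 < x by omega))
  exact lt_of_lt_of_le (by positivity) h1

/-- all but few elements are in progressions -/
theorem her (s k : ℕ) (hk : 1 ≤ k) (u : ℕ) (δ : ℝ) (hu : 1 ≤ u) (hδ : 0 < δ) :
    ∃ B x₀ : ℕ, ∀ x : ℕ, x₀ ≤ x → ∀ (f : Fin s → ℤ × ℤ × ℤ), Possible f → ∀ Y : ℕ, ∀ S : Finset ℕ,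
      S ⊆ Ioc Y (Y + x) → (∀ n ∈ S, (∀ i, (val (f i) n).natAbs.Prime) ∨ Rough u f x n) →
      ((outside k (Real.log x ^ B) S).card : ℝ) ≤ δ * (x * V f x) := by
  classical
  obtain ⟨c, hc, B, n₁, h1⟩ := dn s k hk u hu δ hδ
  obtain ⟨n₂, h2⟩ := big (B + 1)
  obtain ⟨n₄, h4⟩ := V_pos s
  have e3 := (tendsto_natCast_atTop_atTop (R := ℝ)).eventually
    (Real.tendsto_log_atTop.eventually (Filter.eventually_ge_atTop (2 : ℝ)))
  rw [Filter.eventually_atTop] at e3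
  obtain ⟨n₃, h3⟩ := e3
  refine ⟨B + 1, max (max n₁ n₂) (max (max n₃ n₄) 3), ?_⟩
  intro x hx f hf Y S hS hR
  have g1 : Real.log x ^ (B + 1) ≤ (x : ℝ) := h2 x (by omega)
  have g2 : 2 ≤ Real.log x := h3 x (by omega)
  have hV := h4 x (by omega) f hf
  have hlB : 1 ≤ Real.log x ^ B := one_le_pow₀ (by linarith)
  obtain ⟨D, hD⟩ : ∃ D : ℕ, D = ⌈Real.log x ^ B⌉₊ := ⟨_, rfl⟩
  have hD1 : Real.log x ^ B ≤ D := by rw [hD]; exact Nat.le_ceil _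
  have hD2 : (D : ℝ) ≤ Real.log x ^ (B + 1) := by
    have h3 : (D : ℝ) < Real.log x ^ B + 1 := by rw [hD]; exact Nat.ceil_lt_add_one (by linarith)
    rw [pow_succ]
    nlinarith
  have hD0 : (0 : ℝ) < D := by linarith
  have hDx : D ≤ x := by exact_mod_cast hD2.trans g1
  obtain ⟨S', hS'⟩ : ∃ S', S' = outside k (Real.log x ^ (B + 1)) S := ⟨_, rfl⟩
  have hsub : S' ⊆ S := by
    rw [hS']
    unfold outside
    exact filter_subset _ _
  have hAP : AP k D S' = 0 := by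
    unfold AP
    rw [card_eq_zero, filter_eq_empty_iff]
    intro q hq hcon
    rw [mem_product, mem_Icc] at hq
    have h4 := hq.1
    rw [hS'] at h4
    unfold outside at h4
    rw [mem_filter] at h4
    apply h4.2
    refine ⟨q.1, q.2, hq.2.1, ?_, fun j hj => hsub (hcon j hj), 0, by omega, by omega⟩
    refine le_trans ?_ hD2
    exact_mod_cast hq.2.2
  rw [← hS']
  by_contra hcon
  rw [not_le] at hcon
  have h5 := (h1 x (by omega) f hf Y D hD1 hDx S' (hsub.trans hS) (fun n hn => hR n (hsub hn))).1 hcon.le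
  rw [hAP] at h5
  have h6 : (0 : ℝ) < x := by exact_mod_cast (show 0 < x by omega)
  have h8 : 0 < c * ((x : ℝ) * D * V f x ^ k) := by positivity
  rw [Nat.cast_zero] at h5
  linarith

/-- the almost primes -/
theorem almost (s : ℕ) : ∃ t : ℕ, 1 ≤ t ∧ ∀ k : ℕ, 1 ≤ k → ∃ c C : ℝ, 0 < c ∧ 0 < C ∧ ∃ B x₀ : ℕ,
    ∀ x : ℕ, x₀ ≤ x → ∀ (f : Fin s → ℤ × ℤ × ℤ), Possible f → ∀ Y D : ℕ, Real.log x ^ B ≤ D → D ≤ x →
    ∀ S : Finset ℕ, (∀ n, n ∈ S ↔ n ∈ Ioc Y (Y + x) ∧ Rough t f x n) →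
      c * (x * D * V f x ^ k) ≤ AP k D S ∧ (AP k D S : ℝ) ≤ C * (x * D * V f x ^ k) := by
  classical
  obtain ⟨t, ht, c₀, hc₀, X₀, h0⟩ := Pool.Agent.Y843.QD.low_count (2 * s)
  have ht0 : (0 : ℝ) < t := by exact_mod_cast ht
  refine ⟨t, ht, fun k hk => ?_⟩
  obtain ⟨C, hC, B, x₁, h1⟩ := up s k hk t ht
  obtain ⟨c, hc, B', x₂, h2⟩ := dn s k hk t ht c₀ hc₀
  refine ⟨c, C, hc, hC, max B B', max (max X₀ x₁) (max x₂ 3), ?_⟩
  intro x hx f hf Y D hD hDx S hS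
  have hl := Pool.Agent.Y843.AC.log_one (show 3 ≤ x by omega)
  have hx1 : (1 : ℝ) ≤ x := by exact_mod_cast (show 1 ≤ x by omega)
  have hsub : S ⊆ Ioc Y (Y + x) := fun n hn => ((hS n).1 hn).1
  have hR : ∀ n ∈ S, (∀ i, (val (f i) n).natAbs.Prime) ∨ Rough t f x n := fun n hn =>
    Or.inr ((hS n).1 hn).2
  refine ⟨?_, h1 x (by omega) f hf Y D ((pow_le_pow_right₀ hl (le_max_left _ _)).trans hD) S hsub hR⟩
  refine (h2 x (by omega) f hf Y D ((pow_le_pow_right₀ hl (le_max_right _ _)).trans hD) hDx S hsub hR).1 ?_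
  have h3 := h0 x (by omega) Y (roots f) (fun p hp => roots_ok f hf p (Pool.Agent.Y843.HS.Pr_prime hp))
  have h4 : Pool.Agent.Y843.QD.SZ (roots f) Y x ⌊(x : ℝ) ^ (1 / (t : ℝ))⌋₊ ⊆ S := by
    intro n hn
    unfold Pool.Agent.Y843.QD.SZ at hn
    rw [mem_filter] at hn
    rw [hS]
    refine ⟨hn.1, ?_⟩
    intro p hp hpx i hi
    refine hn.2 p ?_ ((avoid f hp).2 ⟨i, hi⟩)
    rw [Pool.Agent.Y843.HS.Pr_mem]
    exact ⟨⟨hp.pos, Nat.le_floor hpx⟩, hp⟩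
  have h5 : V f x ≤ Pool.Agent.Y843.HS.VV (roots f) 0 ⌊(x : ℝ) ^ (1 / (t : ℝ))⌋₊ := by
    rw [V_eq]
    apply Pool.Agent.Y843.HG.VV_anti
    · have h6 : (x : ℝ) ^ (1 / (t : ℝ)) ≤ x := by
        calc (x : ℝ) ^ (1 / (t : ℝ)) ≤ (x : ℝ) ^ (1 : ℝ) := by
              apply Real.rpow_le_rpow_of_exponent_le hx1
              rw [div_le_one ht0]
              exact_mod_cast ht
          _ = x := Real.rpow_one _
      have := Nat.floor_le_floor h6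
      rwa [Nat.floor_natCast] at this
    · intro p hp
      exact (roots_ok f hf p (Pool.Agent.Y843.HS.Pr_prime hp)).2.2
  calc c₀ * (x * V f x) ≤ c₀ * (x * Pool.Agent.Y843.HS.VV (roots f) 0 ⌊(x : ℝ) ^ (1 / (t : ℝ))⌋₊) := by
        apply mul_le_mul_of_nonneg_left _ hc₀.le
        exact mul_le_mul_of_nonneg_left h5 (Nat.cast_nonneg _)
    _ = c₀ * x * Pool.Agent.Y843.HS.VV (roots f) 0 ⌊(x : ℝ) ^ (1 / (t : ℝ))⌋₊ := by ring
    _ ≤ _ := h3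
    _ ≤ S.card := by exact_mod_cast card_le_card h4

lemma P_sub {s : ℕ} (f : Fin s → ℤ × ℤ × ℤ) (x : ℕ) : P f x ⊆ Ioc 0 (0 + x) := by
  intro m hm
  have := mem_Icc.1 (mem_filter.1 hm).1
  rw [mem_Ioc]
  omega

lemma P_R {s : ℕ} (f : Fin s → ℤ × ℤ × ℤ) (x u : ℕ) :
    ∀ n ∈ P f x, (∀ i, (val (f i) n).natAbs.Prime) ∨ Rough u f x n :=
  fun _ hn => Or.inl (mem_filter.1 hn).2

/-- families -/
theorem order (s k : ℕ) (hk : 1 ≤ k) (M : Set (ℕ × (Fin s → ℤ × ℤ × ℤ))) (hM : ∀ q ∈ M, Possible q.2) :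
    ((∃ c : ℝ, 0 < c ∧ ∃ x₀ : ℕ, ∀ q ∈ M, x₀ ≤ q.1 → c * (q.1 * V q.2 q.1) ≤ (P q.2 q.1).card) ↔
      ∃ c C : ℝ, 0 < c ∧ 0 < C ∧ ∃ B x₀ : ℕ, ∀ q ∈ M, x₀ ≤ q.1 → ∀ D : ℕ, Real.log q.1 ^ B ≤ D →
        D ≤ q.1 → c * (q.1 * D * V q.2 q.1 ^ k) ≤ AP k D (P q.2 q.1) ∧
          (AP k D (P q.2 q.1) : ℝ) ≤ C * (q.1 * D * V q.2 q.1 ^ k)) ∧
    ((∃ c : ℝ, 0 < c ∧ ∃ x₀ : ℕ, ∀ q ∈ M, x₀ ≤ q.1 → c * (q.1 * V q.2 q.1) ≤ (P q.2 q.1).card) ↔
      ∃ c : ℝ, 0 < c ∧ ∀ B : ℕ, ∃ x₀ : ℕ, ∀ q ∈ M, x₀ ≤ q.1 → ∃ D : ℕ, Real.log q.1 ^ B ≤ D ∧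
        D ≤ q.1 ∧ c * (q.1 * D * V q.2 q.1 ^ k) ≤ AP k D (P q.2 q.1)) := by
  classical
  have a1 : (∃ c : ℝ, 0 < c ∧ ∃ x₀ : ℕ, ∀ q ∈ M, x₀ ≤ q.1 →
        c * (q.1 * V q.2 q.1) ≤ (P q.2 q.1).card) →
      ∃ c C : ℝ, 0 < c ∧ 0 < C ∧ ∃ B x₀ : ℕ, ∀ q ∈ M, x₀ ≤ q.1 → ∀ D : ℕ, Real.log q.1 ^ B ≤ D →
        D ≤ q.1 → c * (q.1 * D * V q.2 q.1 ^ k) ≤ AP k D (P q.2 q.1) ∧
          (AP k D (P q.2 q.1) : ℝ) ≤ C * (q.1 * D * V q.2 q.1 ^ k) := by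
    rintro ⟨δ, hδ, n₀, h⟩
    obtain ⟨c, hc, B, n₁, h1⟩ := dn s k hk 1 le_rfl δ hδ
    obtain ⟨C, hC, B', n₂, h2⟩ := up s k hk 1 le_rfl
    refine ⟨c, C, hc, hC, max B B', max (max n₀ 3) (max n₁ n₂), ?_⟩
    intro q hq hx D hD hDx
    have hl := Pool.Agent.Y843.AC.log_one (show 3 ≤ q.1 by omega)
    exact ⟨(h1 q.1 (by omega) q.2 (hM q hq) 0 D ((pow_le_pow_right₀ hl (le_max_left _ _)).trans hD) hDx _
      (P_sub _ _) (P_R _ _ _)).1 (h q hq (by omega)),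
      h2 q.1 (by omega) q.2 (hM q hq) 0 D ((pow_le_pow_right₀ hl (le_max_right _ _)).trans hD) _
      (P_sub _ _) (P_R _ _ _)⟩
  have a2 : (∃ c C : ℝ, 0 < c ∧ 0 < C ∧ ∃ B x₀ : ℕ, ∀ q ∈ M, x₀ ≤ q.1 → ∀ D : ℕ,
        Real.log q.1 ^ B ≤ D → D ≤ q.1 → c * (q.1 * D * V q.2 q.1 ^ k) ≤ AP k D (P q.2 q.1) ∧
          (AP k D (P q.2 q.1) : ℝ) ≤ C * (q.1 * D * V q.2 q.1 ^ k)) →
      ∃ c : ℝ, 0 < c ∧ ∀ B : ℕ, ∃ x₀ : ℕ, ∀ q ∈ M, x₀ ≤ q.1 → ∃ D : ℕ, Real.log q.1 ^ B ≤ D ∧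
        D ≤ q.1 ∧ c * (q.1 * D * V q.2 q.1 ^ k) ≤ AP k D (P q.2 q.1) := by
    rintro ⟨c, C, hc, _, B₀, n₀, h⟩
    refine ⟨c, hc, fun B => ?_⟩
    obtain ⟨n₁, h1⟩ := big B
    obtain ⟨n₂, h2⟩ := big B₀
    refine ⟨max n₀ (max n₁ n₂), ?_⟩
    intro q hq hx
    exact ⟨q.1, h1 q.1 (by omega), le_rfl, (h q hq (by omega) q.1 (h2 q.1 (by omega)) le_rfl).1⟩
  have a3 : (∃ c : ℝ, 0 < c ∧ ∀ B : ℕ, ∃ x₀ : ℕ, ∀ q ∈ M, x₀ ≤ q.1 → ∃ D : ℕ, Real.log q.1 ^ B ≤ D ∧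
        D ≤ q.1 ∧ c * (q.1 * D * V q.2 q.1 ^ k) ≤ AP k D (P q.2 q.1)) →
      ∃ c : ℝ, 0 < c ∧ ∃ x₀ : ℕ, ∀ q ∈ M, x₀ ≤ q.1 → c * (q.1 * V q.2 q.1) ≤ (P q.2 q.1).card := by
    rintro ⟨δ, hδ, h⟩
    obtain ⟨c, hc, B, n₁, h1⟩ := dn s k hk 1 le_rfl δ hδ
    obtain ⟨n₀, h0⟩ := h B
    refine ⟨c, hc, max n₀ n₁, ?_⟩
    intro q hq hx
    obtain ⟨D, hD, hDx, hE⟩ := h0 q hq ((le_max_left _ _).trans hx)
    exact (h1 q.1 ((le_max_right _ _).trans hx) q.2 (hM q hq) 0 D hD hDx _ (P_sub _ _) (P_R _ _ _)).2 hE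
  exact ⟨⟨a1, fun h => a3 (a2 h)⟩, ⟨fun h => a2 (a1 h), a3⟩⟩

theorem roots_one (q : ℤ × ℤ × ℤ) (p : ℕ) :
    roots (fun _ : Fin 1 => q) p = Pool.Agent.Y843.QD.Zq q.1 q.2.1 q.2.2 p := by
  classical
  unfold roots Pool.Agent.Y843.QD.Zq
  apply filter_congr
  intro c _
  constructor
  · rintro ⟨_, h⟩
    exact h
  · intro h
    exact ⟨0, h⟩

/-- for a fixed admissible polynomial `V` is of the order `1 / log x` -/
theorem V_one (q : ℤ × ℤ × ℤ) (hq : Admissible q) : ∃ c C : ℝ, 0 < c ∧ 0 < C ∧ ∀ x : ℕ, 2 ≤ x →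
    c / Real.log x ≤ V (fun _ : Fin 1 => q) x ∧ V (fun _ : Fin 1 => q) x ≤ C / Real.log x := by
  have h := (Pool.Agent.Y843.AC.FC_lin (Pool.Agent.Y843.QD.lin_quad q.1 q.2.1 q.2.2 hq.1.ne' hq.2.2.1
    (adm q hq))).ord
  obtain ⟨c, C, hc, hC, h⟩ := h
  refine ⟨c, C, hc, hC, fun x hx => ?_⟩
  have h1 := h x hx
  rw [pow_one] at h1
  have h2 : V (fun _ : Fin 1 => q) x =
      Pool.Agent.Y843.HS.VV (Pool.Agent.Y843.QD.Zq q.1 q.2.1 q.2.2) 0 x := by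
    rw [V_eq]
    unfold Pool.Agent.Y843.HS.VV
    apply prod_congr rfl
    intro p _
    rw [roots_one]
  rw [h2]
  exact h1

/-- at most three prime factors -/
theorem three (q : ℤ × ℤ × ℤ) (hq : Admissible q) (k : ℕ) (hk : 1 ≤ k) : ∃ c C : ℝ, 0 < c ∧ 0 < C ∧
    ∃ B X₀ : ℕ, ∀ X : ℕ, X₀ ≤ X → ∀ A D : ℕ, (A : ℝ) ≤ (X : ℝ) ^ (301 / 300 : ℝ) →
      Real.log X ^ B ≤ D → D ≤ X →
      c * (X * D / Real.log X ^ k) ≤ AP k D (P3 q A X) ∧
        (AP k D (P3 q A X) : ℝ) ≤ C * (X * D / Real.log X ^ k) := by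
  classical
  have hqv : ∀ n : ℕ, Pool.Agent.Y843.QD.qv q.1 q.2.1 q.2.2 n = (val q n).natAbs := fun n => rfl
  have hP3 : ∀ A X : ℕ, Pool.Agent.Y843.QD.P3 q.1 q.2.1 q.2.2 A X = P3 q A X := by
    intro A X
    unfold Pool.Agent.Y843.QD.P3 P3
    apply filter_congr
    intro n _
    rw [hqv]
  obtain ⟨c₀, hc₀, X₁, h1⟩ := Pool.Agent.Y843.QD.p3_quad q.1 q.2.1 q.2.2 hq.1.ne' hq.2.2.1 (adm q hq)
  have hfc := Pool.Agent.Y843.AC.FC_lin (Pool.Agent.Y843.QD.lin_quad q.1 q.2.1 q.2.2 hq.1.ne' hq.2.2.1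
    (adm q hq))
  obtain ⟨⟨C, hC, B, X₂, h2⟩, hdn⟩ := Pool.Agent.Y843.AC.fixed hfc k 5 hk (by norm_num) one_pos
  obtain ⟨c, hc, B', X₃, h3⟩ := hdn c₀ hc₀
  refine ⟨c, C, hc, hC, max B B', max (max X₁ X₂) (max X₃ 3), ?_⟩
  intro X hX A D hA hD hDX
  have hX3 : 3 ≤ X := by omega
  have hXr : (1 : ℝ) < X := by exact_mod_cast (show 1 < X by omega)
  have hl := Pool.Agent.Y843.AC.log_one hX3
  have hsub : P3 q A X ⊆ Ioc A (A + X) := by
    unfold P3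
    exact filter_subset _ _
  have hR : ∀ m ∈ P3 q A X, ∀ p : ℕ, p.Prime → (p : ℝ) ≤ (X : ℝ) ^ (1 / ((5 : ℕ) : ℝ)) →
      m % p ∉ Pool.Agent.Y843.QD.Zq q.1 q.2.1 q.2.2 p := by
    intro m hm p hp hpX hcon
    rw [Pool.Agent.Y843.QD.mem_Zq hp.pos, ← Pool.Agent.Y843.QD.dvd_qv, hqv] at hcon
    unfold P3 at hm
    have h4 := (mem_filter.1 hm).2.2 p hp hcon
    have h5 : (X : ℝ) ^ (1 / ((5 : ℕ) : ℝ)) < (X : ℝ) ^ (1 / 4 : ℝ) := by
      apply Real.rpow_lt_rpow_of_exponent_lt hXr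
      norm_num
    linarith
  have h4 := h1 X (by omega) A hA
  rw [hP3] at h4
  have hE : (X : ℝ) * D * (1 / Real.log X ^ 1) ^ k = X * D / Real.log X ^ k := by
    rw [pow_one, div_pow, one_pow, mul_one_div]
  have h5 := (h3 X (by omega) A X D (by rw [Real.rpow_one]) le_rfl
    ((pow_le_pow_right₀ hl (le_max_right _ _)).trans hD) hDX _ hsub hR).1 (by
      rw [pow_one, mul_one_div, ← mul_div_assoc]
      exact h4)
  have h6 := h2 X (by omega) A X D (by rw [Real.rpow_one]) le_rfl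
    ((pow_le_pow_right₀ hl (le_max_left _ _)).trans hD) _ hsub hR
  rw [hE] at h5 h6
  exact ⟨h5, h6⟩

/-- Let `s ≥ 0`, `k ≥ 1`. `f` is a system of `s` nonconstant integer polynomials of degree at most two, without
fixed prime divisor (`Possible`; every admissible triple of the problem is, if `s = 1`),
`V f x = ∏_{p ≤ x} (1 - ρ(p)/p)`, which is of the order `1 / log x` for one fixed admissible polynomial.

1. For every admissible `q = (a, b, c)`: for all large `X`, all `A ≤ X ^ (301/300)` and all `D`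
  between `log ^ B X` and `X`, the number of the progressions of `k` terms, with differences at most `D`, of
  `n` in `(A, A + X]` for which `a n ^ 2 + b n + c` has at most three prime factors, all at least `X ^ (1/4)`,
  is between `c X D / log ^ k X` and `C X D / log ^ k X`.
2. There is `t = t(s)` such that for all large `x`, UNIFORMLY in `f`, `Y` and `D` in `[log ^ B x, x]`: the `n` in
  `(Y, Y + x]` such that no `f i (n)` has a prime factor `≤ x ^ (1/t)` have between `c x D V ^ k` and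
  `C x D V ^ k` progressions.
3. Let `S` be a set of `n` in `(Y, Y + x]` with all `|f i (n)|` prime, or no `f i (n)` with a prime
  factor `≤ x ^ (1/u)`. Uniformly in `f`, `Y`, `S` and `D ≥ log ^ B x`: `S` has at most `C x D V ^ k`
  progressions; if `D ≤ x`: it has at least `c x D V ^ k` if it has at least `δ x V` elements, and conversely it
  has at least `c x V` elements if it has at least `δ x D V ^ k` progressions; all its elements but `δ x V` lie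
  in progressions in `S` with differences at most `log ^ B x`.
4. For every family `M` of pairs `(x, f)`: the number of the `n ≤ x` with all `|f i (n)|` prime is
  `≫ x V` on `M` if and only if the number of the progressions of `k` of them with differences at most `D`
  is of the order `x D V ^ k` for all `D` between a power of `log x` and `x`; and if and only if (with one
  constant) it is `≫ x D V ^ k` for a single `D ≥ log ^ B x` for every pair of `M`, for every `B`. -/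
theorem result (s : ℕ) :
    (∀ q : ℤ × ℤ × ℤ, Admissible q → ∀ k : ℕ, 1 ≤ k →
      (∃ c C : ℝ, 0 < c ∧ 0 < C ∧ ∃ B X₀ : ℕ, ∀ X : ℕ, X₀ ≤ X →
        ∀ A D : ℕ, (A : ℝ) ≤ (X : ℝ) ^ (301 / 300 : ℝ) → Real.log X ^ B ≤ D → D ≤ X →
        c * (X * D / Real.log X ^ k) ≤ AP k D (P3 q A X) ∧
          (AP k D (P3 q A X) : ℝ) ≤ C * (X * D / Real.log X ^ k)) ∧
      Possible (fun _ : Fin 1 => q) ∧
      (∃ c C : ℝ, 0 < c ∧ 0 < C ∧ ∀ x : ℕ, 2 ≤ x →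
        c / Real.log x ≤ V (fun _ : Fin 1 => q) x ∧ V (fun _ : Fin 1 => q) x ≤ C / Real.log x)) ∧
    (∃ t : ℕ, 1 ≤ t ∧ ∀ k : ℕ, 1 ≤ k → ∃ c C : ℝ, 0 < c ∧ 0 < C ∧ ∃ B x₀ : ℕ,
      ∀ x : ℕ, x₀ ≤ x → ∀ (f : Fin s → ℤ × ℤ × ℤ), Possible f → ∀ Y D : ℕ, Real.log x ^ B ≤ D →
      D ≤ x → ∀ S : Finset ℕ, (∀ n, n ∈ S ↔ n ∈ Ioc Y (Y + x) ∧ Rough t f x n) →
        c * (x * D * V f x ^ k) ≤ AP k D S ∧ (AP k D S : ℝ) ≤ C * (x * D * V f x ^ k)) ∧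
    ∀ k : ℕ, 1 ≤ k →
      (∀ u : ℕ, 1 ≤ u →
        (∃ C : ℝ, 0 < C ∧ ∃ B x₀ : ℕ, ∀ x : ℕ, x₀ ≤ x → ∀ (f : Fin s → ℤ × ℤ × ℤ), Possible f →
          ∀ Y D : ℕ, Real.log x ^ B ≤ D → ∀ S : Finset ℕ, S ⊆ Ioc Y (Y + x) →
          (∀ n ∈ S, (∀ i, (val (f i) n).natAbs.Prime) ∨ Rough u f x n) →
          (AP k D S : ℝ) ≤ C * (x * D * V f x ^ k)) ∧
        (∀ δ : ℝ, 0 < δ → ∃ c : ℝ, 0 < c ∧ ∃ B x₀ : ℕ, ∀ x : ℕ, x₀ ≤ x →
          ∀ (f : Fin s → ℤ × ℤ × ℤ), Possible f →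
          ∀ Y D : ℕ, Real.log x ^ B ≤ D → D ≤ x → ∀ S : Finset ℕ, S ⊆ Ioc Y (Y + x) →
          (∀ n ∈ S, (∀ i, (val (f i) n).natAbs.Prime) ∨ Rough u f x n) →
          (δ * (x * V f x) ≤ S.card → c * (x * D * V f x ^ k) ≤ AP k D S) ∧
          (δ * (x * D * V f x ^ k) ≤ AP k D S → c * (x * V f x) ≤ S.card)) ∧
        (∀ δ : ℝ, 0 < δ → ∃ B x₀ : ℕ, ∀ x : ℕ, x₀ ≤ x → ∀ (f : Fin s → ℤ × ℤ × ℤ), Possible f →
          ∀ Y : ℕ, ∀ S : Finset ℕ, S ⊆ Ioc Y (Y + x) →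
          (∀ n ∈ S, (∀ i, (val (f i) n).natAbs.Prime) ∨ Rough u f x n) →
          ((outside k (Real.log x ^ B) S).card : ℝ) ≤ δ * (x * V f x))) ∧
      (∀ M : Set (ℕ × (Fin s → ℤ × ℤ × ℤ)), (∀ q ∈ M, Possible q.2) →
        ((∃ c : ℝ, 0 < c ∧ ∃ x₀ : ℕ, ∀ q ∈ M, x₀ ≤ q.1 → c * (q.1 * V q.2 q.1) ≤ (P q.2 q.1).card) ↔
          ∃ c C : ℝ, 0 < c ∧ 0 < C ∧ ∃ B x₀ : ℕ, ∀ q ∈ M, x₀ ≤ q.1 → ∀ D : ℕ, Real.log q.1 ^ B ≤ D →
            D ≤ q.1 → c * (q.1 * D * V q.2 q.1 ^ k) ≤ AP k D (P q.2 q.1) ∧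
              (AP k D (P q.2 q.1) : ℝ) ≤ C * (q.1 * D * V q.2 q.1 ^ k)) ∧
        ((∃ c : ℝ, 0 < c ∧ ∃ x₀ : ℕ, ∀ q ∈ M, x₀ ≤ q.1 → c * (q.1 * V q.2 q.1) ≤ (P q.2 q.1).card) ↔
          ∃ c : ℝ, 0 < c ∧ ∀ B : ℕ, ∃ x₀ : ℕ, ∀ q ∈ M, x₀ ≤ q.1 → ∃ D : ℕ, Real.log q.1 ^ B ≤ D ∧
            D ≤ q.1 ∧ c * (q.1 * D * V q.2 q.1 ^ k) ≤ AP k D (P q.2 q.1))) :=
  ⟨fun q hq k hk => ⟨three q hq k hk, possible_one q hq, V_one q hq⟩, almost s, fun k hk =>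
    ⟨fun u hu => ⟨up s k hk u hu, fun δ hδ => dn s k hk u hu δ hδ, fun δ hδ => her s k hk u δ hu hδ⟩,
      fun M hM => order s k hk M hM⟩⟩

end Pool.Agent.Results.MP_a1177c_nt.ProgressionCounts
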