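import Pool.Agent.Y871.LW.TopD

/-!
# Primes `a m² + b m + c` in logarithmic windows at the zeros of the polynomial

For all `a > 0` and `b` and for almost all `c < 0`: in all windows of length at least `(log N) ^ B` near
a zero of `a m² + b m + c`, the number of primes is the one predicted by Hardy and Littlewood, with the
exact constant `ε C(a, b, c) ∏ p / (p - 1)`, and all but `δ` times this number of the elements of every
set `T` of arguments with prime values lie in `j`-term progressions contained in `T`.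
-/

set_option autoImplicit false

namespace Pool.Agent.Results.MP_a1177c_nt.WindowsNearZeros

open Finset Filter Topology

/-- the triple `(a, b, c)` is admissible -/
def Admissible (a b c : ℤ) : Prop :=
  0 < a ∧ (∀ d : ℤ, d ∣ a → d ∣ b → d ∣ c → IsUnit d) ∧ ¬ ((2 : ℤ) ∣ a + b ∧ (2 : ℤ) ∣ c) ∧
    ¬ IsSquare (b ^ 2 - 4 * a * c)

/-- `ε = 2` if `a + b` is even and `ε = 1` if `a + b` is odd -/
noncomputable def eps (a b : ℤ) : ℝ := if (2 : ℤ) ∣ a + b then 2 else 1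

/-- the product `∏_{p > 2, p ∣ gcd(a, b)} p / (p - 1)` -/
noncomputable def gcdProd (a b : ℤ) : ℝ :=
  ∏ p ∈ (Int.gcd a b).primeFactors.filter (fun p => 2 < p), (p : ℝ) / (p - 1)

/-- the partial product `∏_{2 < p ≤ z, p ∤ a} (1 - (D / p) / (p - 1))` of `C(a, b, c)`, where
`D = b² - 4 a c` -/
noncomputable def partialC (a b c : ℤ) (z : ℕ) : ℝ :=
  ∏ p ∈ (Icc 3 z).filter (fun p : ℕ => p.Prime ∧ ¬ (p : ℤ) ∣ a),
    (1 - (jacobiSym (b ^ 2 - 4 * a * c) p : ℝ) / (p - 1))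

/-- the integers `m` with `u < m ≤ v` such that `a m² + b m + c` is a (positive) prime -/
noncomputable def P (a b c u v : ℤ) : Finset ℤ :=
  (Ioc u v).filter (fun m : ℤ => (a * m ^ 2 + b * m + c).toNat.Prime)

/-- the sum of `1 / log (a m² + b m + c)` over the integers `m` with `u < m ≤ v` -/
noncomputable def M (a b c u v : ℤ) : ℝ := ∑ m ∈ Ioc u v, 1 / Real.log ((a * m ^ 2 + b * m + c : ℤ) : ℝ)

/-- `n` is a term of a progression of `j` terms in `T` with a difference `1 ≤ d ≤ D` -/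
def InProgression (T : Finset ℤ) (j : ℕ) (D : ℝ) (n : ℤ) : Prop :=
  ∃ b : ℤ, ∃ d : ℕ, 1 ≤ d ∧ (d : ℝ) ≤ D ∧ (∀ i < j, b + (i : ℤ) * d ∈ T) ∧ ∃ i < j, n = b + (i : ℤ) * d

open Classical in
/-- the elements of `T` which do not lie in such a progression -/
noncomputable def outside (T : Finset ℤ) (j : ℕ) (D : ℝ) : Finset ℤ :=
  T.filter (fun n => ¬ InProgression T j D n)

/-- **Primes `a m² + b m + c` in logarithmic windows at the zeros.** -/
theorem result (a b : ℤ) (ha : 0 < a) (j : ℕ) (hj : 1 ≤ j) (κ δ : ℝ) (hδ : 0 < δ) :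
    ∃ B N₀ : ℕ, ∀ N : ℕ, N₀ ≤ N → ∀ H : ℕ, Real.log N ^ B ≤ H → (H : ℝ) ^ 2 ≤ N →
    ∃ Bad ⊆ Ico (-(N : ℤ)) 0, (Bad.card : ℝ) ≤ δ * N ∧
    ∀ c ∈ Ico (-(N : ℤ)) 0, c ∉ Bad → Admissible a b c →
      ∃ C : ℝ, 0 < C ∧ Tendsto (fun z : ℕ => partialC a b c z) atTop (𝓝 C) ∧
      ∀ u v : ℤ, (H : ℝ) ≤ (v : ℝ) - u → (v : ℝ) - u ≤ κ * H →
        (∀ m ∈ Ioc u v, 2 ≤ a * m ^ 2 + b * m + c ∧
          ((a * m ^ 2 + b * m + c : ℤ) : ℝ) ≤ κ * ((v : ℝ) - u) * √(N : ℝ)) →
        |((P a b c u v).card : ℝ) - eps a b * C * gcdProd a b * M a b c u v| ≤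
          δ * (eps a b * C * gcdProd a b * M a b c u v) ∧ 0 < (P a b c u v).card ∧
        ∀ T ⊆ P a b c u v, ((outside T j (Real.log N ^ B)).card : ℝ) ≤ δ * (P a b c u v).card := by
  classical
  obtain ⟨B, N₀, h0⟩ := Pool.Agent.Y871.LW.qz_all a b ha j hj (max κ 1) δ (le_max_right _ _) hδ
  refine ⟨B, N₀, fun N hN H hH hHN => ?_⟩
  obtain ⟨Bad, hB1, hB2⟩ := h0 N hN H hH hHN
  refine ⟨Bad ∩ Ico (-(N : ℤ)) 0, inter_subset_right, ?_, fun c hc hcB hadm => ?_⟩
  · refine le_trans ?_ hB1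
    exact_mod_cast card_le_card inter_subset_left
  have hcB' : c ∉ Bad := fun h => hcB (mem_inter.2 ⟨h, hc⟩)
  rw [mem_Ico] at hc
  obtain ⟨C, hC, hlim, hw⟩ := hB2 c hc.1 hc.2 hcB' hadm
  refine ⟨C, hC, hlim, fun u v huv1 huv2 hval => ?_⟩
  have hP : P a b c u v = Pool.Agent.Y871.LW.zp
      (Polynomial.C a * Polynomial.X ^ 2 + Polynomial.C b * Polynomial.X) c u v := by
    unfold P Pool.Agent.Y871.LW.zp
    apply filter_congr
    intro m hm
    have h3 := (hval m hm).1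
    have h5 : (Polynomial.C a * Polynomial.X ^ 2 + Polynomial.C b * Polynomial.X : Polynomial ℤ).eval m =
        a * m ^ 2 + b * m := by simp
    rw [h5]
    have h4 : (a * m ^ 2 + b * m + c).toNat = (a * m ^ 2 + b * m + c).natAbs := by omega
    rw [h4]
  have hH0 : (0 : ℝ) ≤ H := Nat.cast_nonneg _
  have huv0 : 0 ≤ (v : ℝ) - u := hH0.trans huv1
  obtain ⟨r1, r2, r3⟩ := hw u v huv1 (huv2.trans (mul_le_mul_of_nonneg_right (le_max_left _ _) hH0)) (by
    intro m hm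
    refine ⟨(hval m hm).1, (hval m hm).2.trans ?_⟩
    apply mul_le_mul_of_nonneg_right _ (Real.sqrt_nonneg _)
    exact mul_le_mul_of_nonneg_right (le_max_left _ _) huv0)
  rw [hP]
  refine ⟨r1, r2, fun T hT => ?_⟩
  exact r3 T hT (outside T j (Real.log N ^ B)) (filter_subset _ _) (fun n hn => (mem_filter.1 hn).2)

end Pool.Agent.Results.MP_a1177c_nt.WindowsNearZeros
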